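import Pool.Agent.H92.SF.LUT
import Pool.Agent.H62.HIL.Eig

set_option autoImplicit false

namespace Pool.Agent.H40.SFU

open MvPolynomial
open Pool.Agent.H84.SM (dp cr dt)
open Pool.Agent.H3.SF Pool.Agent.H92.SF

open scoped IntermediateField.algebraAdjoinAdjoin

/-- the ring of the integral elements is a Noetherian module -/
theorem noeth {k F : Type} [Field k] [CharZero k] [Field F] [Algebra k F] (u : Fin 3 → F)
    (hu : AlgebraicIndependent k u) (hfin : FiniteDimensional (kF k u) F) :
    IsNoetherian (Algebra.adjoin k (Set.range u))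
      (integralClosure (Algebra.adjoin k (Set.range u)) F) := by
  have e : MvPolynomial (Fin 3) k ≃+* Algebra.adjoin k (Set.range u) := hu.aevalEquiv.toRingEquiv
  have h1 : IsNoetherianRing (Algebra.adjoin k (Set.range u)) := isNoetherianRing_of_ringEquiv _ e
  have h2 : IsIntegrallyClosed (Algebra.adjoin k (Set.range u)) := IsIntegrallyClosed.of_equiv e
  have h3 : CharZero (kF k u) := charZero_of_injective_algebraMap (algebraMap k (kF k u)).injective
  have h4 : Algebra.IsSeparable (kF k u) F := inferInstance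
  exact IsIntegralClosure.isNoetherian (Algebra.adjoin k (Set.range u)) (kF k u) F
    (integralClosure (Algebra.adjoin k (Set.range u)) F)

theorem itg_ic {k F : Type} [Field k] [Field F] [Algebra k F] (u : Fin 3 → F) (b : F)
    (h : Itg k u b) : b ∈ integralClosure (Algebra.adjoin k (Set.range u)) F :=
  Pool.Agent.H62.HIL.itg_iff.1 h

/-- the component of degree `e` -/
theorem comp_part {k F : Type} [Field k] [CharZero k] [Field F] [Algebra k F] (u : Fin 3 → F)
    (E : Derivation k F F) (hu : ∀ i, Hm k E 1 (u i)) (n : ℕ) (η : Fin n → F) (d : Fin n → ℕ)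
    (hη : ∀ i, Hm k E (d i) (η i)) (e : ℕ) (b : F) (hb : Hm k E e b)
    (Q : Fin n → MvPolynomial (Fin 3) k) (hsum : b = ∑ i, aeval u (Q i) * η i) :
    ∃ P : Fin n → MvPolynomial (Fin 3) k, (∀ i, d i ≤ e → (P i).IsHomogeneous (e - d i)) ∧
      (∀ i, e < d i → P i = 0) ∧ b = ∑ i, aeval u (P i) * η i := by
  classical
  have : CharZero F := charZero_of_injective_algebraMap (algebraMap k F).injective
  refine ⟨fun i => if d i ≤ e then homogeneousComponent (e - d i) (Q i) else 0, ?_, ?_, ?_⟩
  · intro i hi
    simp only [if_pos hi]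
    exact homogeneousComponent_isHomogeneous _ _
  · intro i hi
    simp only [if_neg (not_le.2 hi)]
  obtain ⟨M, hM⟩ : ∃ M : ℕ, M = e + 1 + ∑ i, ((Q i).totalDegree + 1 + d i) := ⟨_, rfl⟩
  have hMi : ∀ i, (Q i).totalDegree + 1 + d i ≤ M := by
    intro i
    rw [hM]
    have h1 : (Q i).totalDegree + 1 + d i ≤ ∑ i, ((Q i).totalDegree + 1 + d i) :=
      Finset.single_le_sum (f := fun i => (Q i).totalDegree + 1 + d i)
        (fun i _ => Nat.zero_le _) (Finset.mem_univ i)
    omega
  have heM : e < M := by
    rw [hM]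
    omega
  have hQi : ∀ i, Q i = ∑ t ∈ Finset.range M,
      if d i ≤ t then homogeneousComponent (t - d i) (Q i) else 0 := by
    intro i
    have h1 : ∑ t ∈ Finset.range M, (if d i ≤ t then homogeneousComponent (t - d i) (Q i) else 0) =
        ∑ t ∈ Finset.range (M - d i), homogeneousComponent t (Q i) := by
      have h2 : M = d i + (M - d i) := by
        have := hMi i
        omega
      rw [h2, Finset.sum_range_add]
      have h3 : ∑ t ∈ Finset.range (d i),
          (if d i ≤ t then homogeneousComponent (t - d i) (Q i) else 0) = 0 := by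
        refine Finset.sum_eq_zero fun t ht => ?_
        rw [Finset.mem_range] at ht
        rw [if_neg (by omega)]
      rw [h3, zero_add]
      have h4 : d i + (M - d i) - d i = M - d i := by omega
      rw [h4]
      refine Finset.sum_congr rfl fun t _ => ?_
      rw [if_pos (by omega)]
      congr 2
      omega
    rw [h1]
    have h5 := sum_homogeneousComponent (Q i)
    have h6 : Finset.range ((Q i).totalDegree + 1) ⊆ Finset.range (M - d i) := by
      rw [Finset.range_subset_range]
      have := hMi i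
      omega
    rw [← Finset.sum_subset h6, h5]
    intro t _ ht
    rw [Finset.mem_range, not_lt] at ht
    exact homogeneousComponent_eq_zero _ _ (by omega)
  have hY : ∀ t : ℕ, Hm k E (t : ℤ) (∑ i, aeval u (if d i ≤ t then
      homogeneousComponent (t - d i) (Q i) else 0) * η i) := by
    intro t
    refine Pool.Agent.H62.HIL.hm_sum _ _ fun i _ => ?_
    split_ifs with h
    · have h1 := Pool.Agent.H62.HIL.hm_mul (Pool.Agent.H62.HIL.hm_aeval hu
        (homogeneousComponent_isHomogeneous (t - d i) (Q i))) (hη i)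
      have h2 : ((t - d i : ℕ) : ℤ) + (d i : ℤ) = t := by omega
      rw [h2] at h1
      exact h1
    · rw [map_zero, zero_mul]
      exact Pool.Agent.H62.HIL.hm_zero _
  have h0 : ∑ t ∈ Finset.range M, ((∑ i, aeval u (if d i ≤ t then
      homogeneousComponent (t - d i) (Q i) else 0) * η i) - if t = e then b else 0) = 0 := by
    rw [Finset.sum_sub_distrib, Finset.sum_comm]
    have h1 : ∑ t ∈ Finset.range M, (if t = e then b else 0) = b := by
      rw [Finset.sum_ite_eq' (Finset.range M) e fun _ => b, if_pos (Finset.mem_range.2 heM)]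
    rw [h1]
    have h2 : ∑ i, ∑ t ∈ Finset.range M, aeval u (if d i ≤ t then
        homogeneousComponent (t - d i) (Q i) else 0) * η i = b := by
      rw [hsum]
      refine Finset.sum_congr rfl fun i _ => ?_
      rw [← Finset.sum_mul, ← map_sum, ← hQi i]
    rw [h2, sub_self]
  have h1 := Pool.Agent.H62.HIL.hm_sum_eq_zero (κ := k) (E := E) (Finset.range M)
    (fun t : ℕ => (t : ℤ)) (fun a _ b _ h => Nat.cast_injective h) _ (fun t _ => by
      refine Pool.Agent.H62.HIL.hm_sub (hY t) ?_
      split_ifs with h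
      · rw [h]
        exact hb
      · exact Pool.Agent.H62.HIL.hm_zero _) h0 e (Finset.mem_range.2 heM)
  rw [if_pos rfl, sub_eq_zero] at h1
  exact h1.symm

theorem pf_FGB (hDAT : T_DAT) : T_FGB := by
  intro k F _ _ _ _ _ u dd δ j0 c0 J m G hB
  classical
  have hu1 := (hDAT k F u dd δ j0 c0 J m G hB).2.2.2.2.1
  have hfin : FiniteDimensional (kF k u) F := by
    refine Module.finite_of_finrank_pos ?_
    rw [hB.rank]
    exact hB.pos
  have hN := noeth u hB.ind hfin
  obtain ⟨S, hS⟩ : ∃ S : Set (integralClosure (Algebra.adjoin k (Set.range u)) F),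
    S = {x : integralClosure (Algebra.adjoin k (Set.range u)) F |
      ∃ t : ℤ, (x : F) ∈ BB k u (eu u dd) t} := ⟨_, rfl⟩
  have hfg : (Submodule.span (Algebra.adjoin k (Set.range u)) S).FG := IsNoetherian.noetherian _
  rw [Submodule.fg_span_iff_fg_span_finset_subset] at hfg
  obtain ⟨T, hTS, hT⟩ := hfg
  have hdeg : ∀ x ∈ T, ∃ d : ℕ, (x : F) ∈ BB k u (eu u dd) d := by
    intro x hx
    have h1 := hTS hx
    rw [hS] at h1
    obtain ⟨t, ht⟩ := h1
    rcases le_or_gt 0 t with h0 | h0
    · obtain ⟨n, rfl⟩ := Int.eq_ofNat_of_zero_le h0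
      exact ⟨n, ht⟩
    · rw [hB.neg t h0, Submodule.mem_bot] at ht
      refine ⟨0, ?_⟩
      rw [ht]
      exact Submodule.zero_mem _
  have hdeg2 : ∀ x : T, ∃ d : ℕ, ((x : integralClosure (Algebra.adjoin k (Set.range u)) F) : F) ∈
      BB k u (eu u dd) d := fun x => hdeg x x.2
  choose dT hdT using hdeg2
  refine ⟨T.card, fun i => (((T.equivFin.symm i : T) :
    integralClosure (Algebra.adjoin k (Set.range u)) F) : F), fun i => dT (T.equivFin.symm i),
    fun i => hdT _, ?_⟩
  obtain ⟨η, hη⟩ : ∃ η : Fin T.card → F, η = fun i => (((T.equivFin.symm i : T) :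
    integralClosure (Algebra.adjoin k (Set.range u)) F) : F) := ⟨_, rfl⟩
  obtain ⟨d, hd⟩ : ∃ d : Fin T.card → ℕ, d = fun i => dT (T.equivFin.symm i) := ⟨_, rfl⟩
  have hηd : ∀ i, η i ∈ BB k u (eu u dd) (d i) := by
    intro i
    rw [hη, hd]
    exact hdT _
  rw [← hη, ← hd]
  show ∀ (e : ℕ) (b : F), b ∈ BB k u (eu u dd) e →
    ∃ P : Fin T.card → MvPolynomial (Fin 3) k, (∀ i, d i ≤ e → (P i).IsHomogeneous (e - d i)) ∧
      (∀ i, e < d i → P i = 0) ∧ b = ∑ i, aeval u (P i) * η i
  intro e b hb
  -- a combination of the generators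
  have hbS : (⟨b, itg_ic u b hb.1⟩ : integralClosure (Algebra.adjoin k (Set.range u)) F) ∈
      Submodule.span (Algebra.adjoin k (Set.range u))
        (T : Set (integralClosure (Algebra.adjoin k (Set.range u)) F)) := by
    rw [← hT]
    refine Submodule.subset_span ?_
    rw [hS]
    exact ⟨e, hb⟩
  rw [Submodule.mem_span_finset'] at hbS
  obtain ⟨f, hf⟩ := hbS
  have hfQ : ∀ x : T, ∃ Q : MvPolynomial (Fin 3) k, aeval u Q = ((f x : Algebra.adjoin k
      (Set.range u)) : F) := by
    intro x
    exact (SetLike.ext_iff.1 (Algebra.adjoin_range_eq_range_aeval k u) _).1 (f x).2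
  choose Q hQ using hfQ
  have hsum : b = ∑ i : Fin T.card, aeval u (Q (T.equivFin.symm i)) * η i := by
    have h1 : b = ∑ x : T, aeval u (Q x) *
        ((x : integralClosure (Algebra.adjoin k (Set.range u)) F) : F) := by
      have h2 : b = ((∑ a : T, f a • (a : integralClosure (Algebra.adjoin k (Set.range u)) F) :
          integralClosure (Algebra.adjoin k (Set.range u)) F) : F) := by rw [hf]
      rw [h2, AddSubmonoidClass.coe_finsetSum]
      refine Finset.sum_congr rfl fun x _ => ?_
      rw [hQ x]
      rfl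
    rw [h1, hη]
    exact (Equiv.sum_comp T.equivFin.symm _).symm
  exact comp_part u (eu u dd) hu1 T.card η d (fun i => (hηd i).2) e b hb.2 _ hsum

end Pool.Agent.H40.SFU
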